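import Pool.Agent.Lib.MP_9f1016_co.Moment

/-!
# The optimal constant `k* = 3/2` in `l(S)^2 ≥ k |S| p(S)`
-/

namespace Pool.Agent.Results.MP_9f1016_co.KStar

/-- The number of lines containing at least two points of `S`. -/
noncomputable def numLines (S : Finset (EuclideanSpace ℝ (Fin 3))) : ℕ :=
  {L : AffineSubspace ℝ (EuclideanSpace ℝ (Fin 3)) | Module.finrank ℝ L.direction = 1 ∧
    ∃ p ∈ S, ∃ q ∈ S, p ≠ q ∧ p ∈ L ∧ q ∈ L}.ncard

/-- The number of planes containing at least three non-collinear points of `S`. -/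
noncomputable def numPlanes (S : Finset (EuclideanSpace ℝ (Fin 3))) : ℕ :=
  {P : AffineSubspace ℝ (EuclideanSpace ℝ (Fin 3)) | Module.finrank ℝ P.direction = 2 ∧
    ∃ p ∈ S, ∃ q ∈ S, ∃ r ∈ S,
      ¬ Collinear ℝ ({p, q, r} : Set (EuclideanSpace ℝ (Fin 3))) ∧ p ∈ P ∧ q ∈ P ∧ r ∈ P}.ncard

/-- `L` is a line. -/
def IsLine (L : AffineSubspace ℝ (EuclideanSpace ℝ (Fin 3))) : Prop :=
  Module.finrank ℝ L.direction = 1

/-- `L` and `M` are skew lines: two lines that do not lie in a common plane. -/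
def Skew (L M : AffineSubspace ℝ (EuclideanSpace ℝ (Fin 3))) : Prop :=
  IsLine L ∧ IsLine M ∧ ¬ Coplanar ℝ ((L : Set (EuclideanSpace ℝ (Fin 3))) ∪ (M : Set _))

/-- `S` is contained in the union of two skew lines. -/
def OnTwoSkewLines (S : Finset (EuclideanSpace ℝ (Fin 3))) : Prop :=
  ∃ L M : AffineSubspace ℝ (EuclideanSpace ℝ (Fin 3)), Skew L M ∧ ∀ x ∈ S, x ∈ L ∨ x ∈ M

/-- `S` is not contained in a plane, nor in the union of two skew lines. -/
def Admissible (S : Finset (EuclideanSpace ℝ (Fin 3))) : Prop :=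
  ¬ Coplanar ℝ (S : Set (EuclideanSpace ℝ (Fin 3))) ∧ ¬ OnTwoSkewLines S

open Pool.Agent.Lib.MP_9f1016_co in
theorem result :
    IsGLB {k : ℝ | ∃ S : Finset (EuclideanSpace ℝ (Fin 3)), Admissible S ∧
      k = (numLines S : ℝ) ^ 2 / ((S.card : ℝ) * (numPlanes S : ℝ))} (3 / 2) := by
  have hl : ∀ S, numLines S = ((affGeo _).lines S).card := fun S => by
    rw [numLines, ← coe_lines, Set.ncard_coe_finset]
  have hp : ∀ S, numPlanes S = ((affGeo _).planes S).card := fun S => by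
    rw [numPlanes, ← coe_planes, Set.ncard_coe_finset]
  constructor
  · rintro _ ⟨S, hS, rfl⟩
    obtain ⟨h1, h2⟩ := planes_pos hS.1
    rw [hl, hp, le_div_iff₀ (by positivity)]
    linarith [Geo.three_halves (G := affGeo _) S]
  · intro c hc
    refine le_of_forall_pos_le_add fun ε hε => ?_
    obtain ⟨m, hm⟩ := exists_nat_ge (3 / 2 / ε)
    have h1 := hc ⟨momSet (m + 5), ⟨momSet_not_coplanar (by omega), fun ⟨L, M, h1, h2⟩ =>
      momSet_not_subset (by omega) L M h1.1 h1.2.1 fun x hx => h2 x hx⟩, rfl⟩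
    rw [hl, hp] at h1
    refine h1.trans ((ratio_mom (by omega)).trans ?_)
    have h0 : (0 : ℝ) ≤ m := Nat.cast_nonneg m
    rw [div_le_iff₀ hε] at hm
    push_cast
    rw [add_le_add_iff_left, div_le_iff₀ (by linarith)]
    nlinarith

end Pool.Agent.Results.MP_9f1016_co.KStar
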